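import Pool.Agent.V5helper19.QC.Stm

/-!
Project QC (helper19, MP_532027_co), job PSI: the local expansion of the exponent.
-/

set_option autoImplicit false

open V5helper19.QC

namespace V5helper76.QC

theorem zz_re (α s : ℝ) : (zz α s).re = α := by simp [zz]

theorem hasDerivAt_zz (α s : ℝ) : HasDerivAt (fun t : ℝ => zz α t) Complex.I s := by
  have h1 : HasDerivAt (fun t : ℝ => (t : ℂ)) 1 s := by
    simpa using (hasDerivAt_id s).ofReal_comp
  have h2 := (h1.mul_const Complex.I).const_add (α : ℂ)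
  simpa [zz] using h2

theorem comp_zz {f : ℂ → ℂ} {f' : ℂ} {α s : ℝ} (h : HasDerivAt f f' (zz α s)) :
    HasDerivAt (fun t : ℝ => f (zz α t)) (Complex.I * f') s := by
  have := HasDerivAt.scomp s h (hasDerivAt_zz α s)
  simpa [Function.comp_def, smul_eq_mul] using this

theorem t_PSI (hder : S_DER) : S_PSI := by
  intro n α r K k σ l hα hr hK hl hlk hσ hLD3 θ hθ
  have hd : ∀ s : ℝ, _ := fun s => hder n (zz α s) (by rw [zz_re]; exact hα)
  have hz0 : zz α 0 = (α : ℂ) := by simp [zz]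
  have d1 : ∀ s : ℝ, HasDerivAt (fun t : ℝ => GZ n (zz α t))
      (Complex.I * (GZ n (zz α s) * LD n (zz α s))) s := fun s => comp_zz (hd s).2.1
  have d2 : ∀ s : ℝ, HasDerivAt (fun t : ℝ => LD n (zz α t)) (Complex.I * LD2 n (zz α s)) s :=
    fun s => comp_zz (hd s).2.2.1
  have d3 : ∀ s : ℝ, HasDerivAt (fun t : ℝ => LD2 n (zz α t)) (Complex.I * LD3 n (zz α s)) s :=
    fun s => comp_zz (hd s).2.2.2
  have habs : ∀ {s t : ℝ}, t ∈ Set.uIcc (0 : ℝ) s → |t| ≤ |s| := by
    intro s t ht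
    have h1 := Set.abs_sub_left_of_mem_uIcc ht
    simpa using h1
  -- the second derivative
  have b2 : ∀ s : ℝ, |s| ≤ r → ‖LD2 n (zz α s) - σ‖ ≤ K * |s| := by
    intro s hs
    have h1 := (convex_uIcc (0 : ℝ) s).norm_image_sub_le_of_norm_hasDerivWithin_le
      (f := fun t : ℝ => LD2 n (zz α t)) (f' := fun t => Complex.I * LD3 n (zz α t)) (C := K)
      (fun t _ => (d3 t).hasDerivWithinAt) (fun t ht => by
        rw [norm_mul, Complex.norm_I, one_mul]
        exact hLD3 t ((habs ht).trans hs)) Set.left_mem_uIcc Set.right_mem_uIcc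
    simp only [hz0, hσ, sub_zero, Real.norm_eq_abs] at h1
    exact h1
  -- the first derivative
  have b1 : ∀ s : ℝ, |s| ≤ r → ‖LD n (zz α s) - l - Complex.I * (s : ℂ) * σ‖ ≤ K * |s| * |s| := by
    intro s hs
    have hder2 : ∀ t : ℝ, HasDerivAt (fun t : ℝ => LD n (zz α t) - Complex.I * (t : ℂ) * σ)
        (Complex.I * LD2 n (zz α t) - Complex.I * σ) t := by
      intro t
      have h1 : HasDerivAt (fun t : ℝ => (t : ℂ)) 1 t := by
        simpa using (hasDerivAt_id t).ofReal_comp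
      have h2 := (h1.const_mul Complex.I).mul_const (σ : ℂ)
      rw [mul_one] at h2
      exact (d2 t).sub h2
    have h1 := (convex_uIcc (0 : ℝ) s).norm_image_sub_le_of_norm_hasDerivWithin_le
      (f := fun t : ℝ => LD n (zz α t) - Complex.I * (t : ℂ) * σ)
      (f' := fun t => Complex.I * LD2 n (zz α t) - Complex.I * σ) (C := K * |s|)
      (fun t _ => (hder2 t).hasDerivWithinAt) (fun t ht => by
        rw [← mul_sub, norm_mul, Complex.norm_I, one_mul]
        exact (b2 t ((habs ht).trans hs)).trans (mul_le_mul_of_nonneg_left (habs ht) hK))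
      Set.left_mem_uIcc Set.right_mem_uIcc
    simp only [hz0, hl, sub_zero, Real.norm_eq_abs, Complex.ofReal_zero, mul_zero, zero_mul] at h1
    have e : LD n (zz α s) - l - Complex.I * (s : ℂ) * σ =
        LD n (zz α s) - Complex.I * (s : ℂ) * σ - l := by ring
    rw [e]
    exact h1
  -- the function under the integral
  let g : ℝ → ℂ := fun s => Complex.I * (LD n (zz α s) - l - Complex.I * (s : ℂ) * σ)
  have hg : Continuous g := by
    have h1 : Continuous fun s : ℝ => LD n (zz α s) :=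
      continuous_iff_continuousAt.2 fun s => (d2 s).continuousAt
    exact continuous_const.mul ((h1.sub continuous_const).sub
      ((continuous_const.mul Complex.continuous_ofReal).mul continuous_const))
  let J : ℝ → ℂ := fun t => ∫ s in (0 : ℝ)..t, g s
  have hJ : ∀ t, HasDerivAt J (g t) t := fun t => (hg.integral_hasStrictDerivAt 0 t).hasDerivAt
  have hJn : ‖J θ‖ ≤ K * |θ| ^ 3 := by
    have h1 : ∀ s ∈ Set.uIoc (0 : ℝ) θ, ‖g s‖ ≤ K * |θ| * |θ| := by
      intro s hs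
      have hs' := habs (Set.uIoc_subset_uIcc hs)
      change ‖Complex.I * (LD n (zz α s) - l - Complex.I * (s : ℂ) * σ)‖ ≤ _
      rw [norm_mul, Complex.norm_I, one_mul]
      refine (b1 s (hs'.trans hθ)).trans ?_
      exact mul_le_mul (mul_le_mul_of_nonneg_left hs' hK) hs' (abs_nonneg _) (by positivity)
    have h2 := intervalIntegral.norm_integral_le_of_norm_le_const h1
    rw [sub_zero] at h2
    refine h2.trans (le_of_eq ?_)
    ring
  let F : ℝ → ℂ := fun t => Complex.I * ((l : ℂ) + k) * (t : ℂ) + J t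
  have hid : ∀ t : ℝ, HasDerivAt (fun t : ℝ => (t : ℂ)) 1 t := fun t => by
    simpa using (hasDerivAt_id t).ofReal_comp
  have hF : ∀ t, HasDerivAt F (Complex.I * ((l : ℂ) + k) + g t) t := by
    intro t
    have h1 := ((hid t).const_mul (Complex.I * ((l : ℂ) + k))).add (hJ t)
    rw [mul_one] at h1
    exact h1
  have hGα : GZ n (α : ℂ) ≠ 0 := by
    have := (hd 0).1
    rwa [hz0] at this
  let Q : ℝ → ℂ := fun t => GZ n (zz α t) / GZ n (α : ℂ) *
    Complex.exp ((k : ℂ) * (t : ℂ) * Complex.I) * Complex.exp ((σ : ℂ) * (t : ℂ) ^ 2 / 2 - F t)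
  have hQ : ∀ t, HasDerivAt Q 0 t := by
    intro t
    have h1 := (d1 t).div_const (GZ n (α : ℂ))
    have h2 : HasDerivAt (fun t : ℝ => Complex.exp ((k : ℂ) * (t : ℂ) * Complex.I))
        (Complex.exp ((k : ℂ) * (t : ℂ) * Complex.I) * ((k : ℂ) * 1 * Complex.I)) t :=
      (((hid t).const_mul (k : ℂ)).mul_const Complex.I).cexp
    have h3 : HasDerivAt (fun t : ℝ => (σ : ℂ) * (t : ℂ) ^ 2 / 2 - F t)
        ((σ : ℂ) * (2 * (t : ℂ) ^ 1 * 1) / 2 - (Complex.I * ((l : ℂ) + k) + g t)) t := by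
      have h4 := (((hid t).pow 2).const_mul (σ : ℂ)).div_const 2
      exact h4.sub (hF t)
    have h5 := (h1.mul h2).mul h3.cexp
    refine h5.congr_deriv ?_
    have hI : Complex.I * Complex.I = -1 := Complex.I_mul_I
    change (Complex.I * (GZ n (zz α t) * LD n (zz α t)) / GZ n (α : ℂ) *
      Complex.exp ((k : ℂ) * (t : ℂ) * Complex.I) + GZ n (zz α t) / GZ n (α : ℂ) *
      (Complex.exp ((k : ℂ) * (t : ℂ) * Complex.I) * ((k : ℂ) * 1 * Complex.I))) *
      Complex.exp ((σ : ℂ) * (t : ℂ) ^ 2 / 2 - F t) +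
      (GZ n (zz α t) / GZ n (α : ℂ) * Complex.exp ((k : ℂ) * (t : ℂ) * Complex.I)) *
      (Complex.exp ((σ : ℂ) * (t : ℂ) ^ 2 / 2 - F t) *
      ((σ : ℂ) * (2 * (t : ℂ) ^ 1 * 1) / 2 - (Complex.I * ((l : ℂ) + k) +
      Complex.I * (LD n (zz α t) - l - Complex.I * (t : ℂ) * σ)))) = 0
    have e : (σ : ℂ) * (2 * (t : ℂ) ^ 1 * 1) / 2 - (Complex.I * ((l : ℂ) + k) +
      Complex.I * (LD n (zz α t) - l - Complex.I * (t : ℂ) * σ)) =
      -(Complex.I * (LD n (zz α t) + k)) := by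
      linear_combination (t : ℂ) * σ * hI
    rw [e]
    ring
  have hconst : Q θ = Q 0 :=
    is_const_of_deriv_eq_zero (fun t => (hQ t).differentiableAt) (fun t => (hQ t).deriv) θ 0
  have hQ0 : Q 0 = 1 := by
    change GZ n (zz α 0) / GZ n (α : ℂ) * Complex.exp ((k : ℂ) * ((0 : ℝ) : ℂ) * Complex.I) *
      Complex.exp ((σ : ℂ) * ((0 : ℝ) : ℂ) ^ 2 / 2 - (Complex.I * ((l : ℂ) + k) * ((0 : ℝ) : ℂ) +
        ∫ s in (0 : ℝ)..0, g s)) = 1
    rw [hz0, div_self hGα, intervalIntegral.integral_same]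
    simp
  rw [hQ0] at hconst
  refine ⟨F θ, ?_, ?_⟩
  · have h1 : Complex.exp (-(σ : ℂ) * (θ : ℂ) ^ 2 / 2 + F θ) *
        Complex.exp ((σ : ℂ) * (θ : ℂ) ^ 2 / 2 - F θ) = 1 := by
      rw [← Complex.exp_add]
      have : -(σ : ℂ) * (θ : ℂ) ^ 2 / 2 + F θ + ((σ : ℂ) * (θ : ℂ) ^ 2 / 2 - F θ) = 0 := by ring
      rw [this, Complex.exp_zero]
    exact mul_right_cancel₀ (Complex.exp_ne_zero _) (hconst.trans h1.symm)
  · change ‖Complex.I * ((l : ℂ) + k) * (θ : ℂ) + J θ‖ ≤ _
    refine (norm_add_le _ _).trans (add_le_add ?_ hJn)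
    rw [norm_mul, norm_mul, Complex.norm_I, one_mul, ← Complex.ofReal_add, Complex.norm_real,
      Complex.norm_real, Real.norm_eq_abs, Real.norm_eq_abs]
    calc |l + k| * |θ| ≤ 1 * |θ| := mul_le_mul_of_nonneg_right hlk (abs_nonneg _)
      _ = |θ| := one_mul _

end V5helper76.QC
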